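import Pool.Agent.Run7.h684.SO.Def

/-!
# Project SO, piece BES: expansion of the square
-/

set_option autoImplicit false

open Complex Filter Topology

namespace Run7.h684.SO

namespace Bes

lemma cpow_pt {p : ℕ} (hp : p ≠ 0) (δ t : ℝ) :
    (p : ℂ) ^ (-(pt δ t)) = (((p : ℝ) ^ (-(1 + δ)) : ℝ) : ℂ) * (p : ℂ) ^ (-((t : ℂ) * I)) := by
  have h1 : -(pt δ t) = ((-(1 + δ) : ℝ) : ℂ) + -((t : ℂ) * I) := by
    unfold pt
    push_cast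
    ring
  rw [h1, Complex.cpow_add _ _ (by exact_mod_cast hp), Complex.ofReal_cpow (Nat.cast_nonneg p)]
  simp

lemma conj_z {p : ℕ} (t : ℝ) :
    (starRingEnd ℂ) ((p : ℂ) ^ ((t : ℂ) * I)) = (p : ℂ) ^ (-((t : ℂ) * I)) := by
  have h1 : (p : ℂ).arg ≠ Real.pi := by
    rw [Complex.natCast_arg]
    exact Real.pi_pos.ne
  have h2 := Complex.cpow_conj (p : ℂ) ((t : ℂ) * I) h1
  have h3 : (starRingEnd ℂ) ((t : ℂ) * I) = -((t : ℂ) * I) := by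
    rw [map_mul, Complex.conj_ofReal, Complex.conj_I, mul_neg]
  rw [h3, Complex.conj_natCast] at h2
  exact h2.symm

lemma norm_cpow_pt {p : ℕ} (hp : 0 < p) (δ t : ℝ) :
    ‖(p : ℂ) ^ (-(pt δ t))‖ = (p : ℝ) ^ (-(1 + δ)) := by
  rw [Complex.norm_natCast_cpow_of_pos hp]
  congr 1
  unfold pt
  simp

/-- the expansion for one prime -/
lemma point {p : ℕ} (hp : p ≠ 0) (a : ℂ) (J : Finset ℝ) (n : ℝ → ℤ) (δ : ℝ) :
    ‖a + ∑ t ∈ J, (n t : ℂ) * (p : ℂ) ^ ((t : ℂ) * I)‖ ^ 2 * (p : ℝ) ^ (-(1 + δ)) =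
      ‖a‖ ^ 2 * (p : ℝ) ^ (-(1 + δ)) +
        2 * ∑ t ∈ J, (n t : ℝ) * (a * (p : ℂ) ^ (-(pt δ t))).re +
      ∑ t ∈ J, ∑ u ∈ J, ((n t : ℝ) * (n u : ℝ)) * (one p * (p : ℂ) ^ (-(pt δ (t - u)))).re := by
  set q : ℝ := (p : ℝ) ^ (-(1 + δ)) with hq
  have hp' : (p : ℂ) ≠ 0 := by exact_mod_cast hp
  have hre : ∀ (m : ℤ) (z : ℂ), ((m : ℂ) * z).re = (m : ℝ) * z.re := by
    intro m z
    rw [← Complex.ofReal_intCast, Complex.re_ofReal_mul]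
  have hconjS : (starRingEnd ℂ) (∑ t ∈ J, (n t : ℂ) * (p : ℂ) ^ ((t : ℂ) * I)) =
      ∑ t ∈ J, (n t : ℂ) * (p : ℂ) ^ (-((t : ℂ) * I)) := by
    rw [map_sum]
    refine Finset.sum_congr rfl fun t _ => ?_
    rw [map_mul, conj_z, map_intCast]
  have h1 : ∀ t : ℝ, (a * (p : ℂ) ^ (-(pt δ t))).re = q * (a * (p : ℂ) ^ (-((t : ℂ) * I))).re := by
    intro t
    rw [cpow_pt hp, ← hq, ← Complex.re_ofReal_mul]
    congr 1
    ring
  have h2 : ∀ t u : ℝ, (one p * (p : ℂ) ^ (-(pt δ (t - u)))).re =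
      q * ((p : ℂ) ^ ((t : ℂ) * I) * (p : ℂ) ^ (-((u : ℂ) * I))).re := by
    intro t u
    rw [cpow_pt hp, ← hq]
    unfold one
    rw [one_mul, Complex.re_ofReal_mul, ← conj_z, Complex.conj_re, ← Complex.cpow_add _ _ hp']
    congr 3
    push_cast
    ring
  have h3 : ‖a + ∑ t ∈ J, (n t : ℂ) * (p : ℂ) ^ ((t : ℂ) * I)‖ ^ 2 =
      ‖a‖ ^ 2 + (∑ t ∈ J, ∑ u ∈ J, ((n t : ℝ) * (n u : ℝ)) *
        ((p : ℂ) ^ ((t : ℂ) * I) * (p : ℂ) ^ (-((u : ℂ) * I))).re) +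
      2 * ∑ t ∈ J, (n t : ℝ) * (a * (p : ℂ) ^ (-((t : ℂ) * I))).re := by
    rw [← Complex.normSq_eq_norm_sq, Complex.normSq_add, ← Complex.normSq_eq_norm_sq a, hconjS]
    congr 1
    · congr 1
      have h4 : Complex.normSq (∑ t ∈ J, (n t : ℂ) * (p : ℂ) ^ ((t : ℂ) * I)) =
          ((∑ t ∈ J, (n t : ℂ) * (p : ℂ) ^ ((t : ℂ) * I)) *
            (starRingEnd ℂ) (∑ t ∈ J, (n t : ℂ) * (p : ℂ) ^ ((t : ℂ) * I))).re := by
        rw [Complex.mul_conj, Complex.ofReal_re]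
      rw [h4, hconjS, Finset.sum_mul_sum, Complex.re_sum]
      refine Finset.sum_congr rfl fun t _ => ?_
      rw [Complex.re_sum]
      refine Finset.sum_congr rfl fun u _ => ?_
      rw [show (n t : ℂ) * (p : ℂ) ^ ((t : ℂ) * I) * ((n u : ℂ) * (p : ℂ) ^ (-((u : ℂ) * I))) =
        (n t : ℂ) * ((n u : ℂ) * ((p : ℂ) ^ ((t : ℂ) * I) * (p : ℂ) ^ (-((u : ℂ) * I)))) by ring,
        hre, hre, mul_assoc]
    · congr 1
      rw [Finset.mul_sum, Complex.re_sum]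
      refine Finset.sum_congr rfl fun t _ => ?_
      rw [show a * ((n t : ℂ) * (p : ℂ) ^ (-((t : ℂ) * I))) =
        (n t : ℂ) * (a * (p : ℂ) ^ (-((t : ℂ) * I))) by ring, hre]
  rw [h3]
  have h5 : ∑ t ∈ J, (n t : ℝ) * (a * (p : ℂ) ^ (-(pt δ t))).re =
      (∑ t ∈ J, (n t : ℝ) * (a * (p : ℂ) ^ (-((t : ℂ) * I))).re) * q := by
    rw [Finset.sum_mul]
    refine Finset.sum_congr rfl fun t _ => ?_
    rw [h1]; ring
  have h6 : ∑ t ∈ J, ∑ u ∈ J, ((n t : ℝ) * (n u : ℝ)) * (one p * (p : ℂ) ^ (-(pt δ (t - u)))).re =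
      (∑ t ∈ J, ∑ u ∈ J, ((n t : ℝ) * (n u : ℝ)) *
        ((p : ℂ) ^ ((t : ℂ) * I) * (p : ℂ) ^ (-((u : ℂ) * I))).re) * q := by
    rw [Finset.sum_mul]
    refine Finset.sum_congr rfl fun t _ => ?_
    rw [Finset.sum_mul]
    refine Finset.sum_congr rfl fun u _ => ?_
    rw [h2]; ring
  rw [h5, h6]
  ring

end Bes

open Bes in
theorem t_BES : S_BES := by
  intro hone a J n ha2 ha
  have key : ∀ δ : ℝ, 0 < δ → HasSum (fun p : Nat.Primes =>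
      ‖a p + ∑ t ∈ J, (n t : ℂ) * ((p : ℕ) : ℂ) ^ ((t : ℂ) * I)‖ ^ 2 *
        ((p : ℕ) : ℝ) ^ (-(1 + δ)))
      (Lw (fun p => ‖a p‖ ^ 2) δ + 2 * ∑ t ∈ J, (n t : ℝ) * PS a δ t +
        ∑ t ∈ J, ∑ u ∈ J, ((n t : ℝ) * (n u : ℝ)) * PS one δ (t - u)) := by
    intro δ hδ
    have h1 : HasSum (fun p : Nat.Primes => ‖a p‖ ^ 2 * ((p : ℕ) : ℝ) ^ (-(1 + δ)))
        (Lw (fun p => ‖a p‖ ^ 2) δ) := (ha2 δ hδ).hasSum
    have h2 : ∀ t : ℝ, HasSum (fun p : Nat.Primes => (a p * ((p : ℕ) : ℂ) ^ (-(pt δ t))).re)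
        (PS a δ t) := by
      intro t
      refine Summable.hasSum ?_
      refine Summable.of_norm_bounded (ha δ hδ) fun p => ?_
      rw [Real.norm_eq_abs]
      refine (Complex.abs_re_le_norm _).trans (le_of_eq ?_)
      rw [norm_mul, norm_cpow_pt p.2.pos]
    have h3 : ∀ t : ℝ, HasSum (fun p : Nat.Primes => (one p * ((p : ℕ) : ℂ) ^ (-(pt δ t))).re)
        (PS one δ t) := by
      intro t
      refine Summable.hasSum ?_
      refine Summable.of_norm_bounded (hone δ hδ) fun p => ?_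
      rw [Real.norm_eq_abs]
      refine (Complex.abs_re_le_norm _).trans (le_of_eq ?_)
      rw [norm_mul, norm_cpow_pt p.2.pos]
      unfold one
      rw [norm_one]
    have h4 := (h1.add ((hasSum_sum fun t (_ : t ∈ J) => (h2 t).mul_left (n t : ℝ)).mul_left 2)).add
      (hasSum_sum fun t (_ : t ∈ J) => hasSum_sum fun u (_ : u ∈ J) =>
        (h3 (t - u)).mul_left ((n t : ℝ) * (n u : ℝ)))
    have h5 : (fun p : Nat.Primes =>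
        ‖a p + ∑ t ∈ J, (n t : ℂ) * ((p : ℕ) : ℂ) ^ ((t : ℂ) * I)‖ ^ 2 *
          ((p : ℕ) : ℝ) ^ (-(1 + δ))) = fun p : Nat.Primes =>
        ‖a p‖ ^ 2 * ((p : ℕ) : ℝ) ^ (-(1 + δ)) +
          2 * ∑ t ∈ J, (n t : ℝ) * (a p * ((p : ℕ) : ℂ) ^ (-(pt δ t))).re +
        ∑ t ∈ J, ∑ u ∈ J, ((n t : ℝ) * (n u : ℝ)) *
          (one p * ((p : ℕ) : ℂ) ^ (-(pt δ (t - u)))).re :=
      funext fun p => point p.2.ne_zero (a p) J n δ
    rw [h5]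
    exact h4
  refine ⟨fun δ hδ => (key δ hδ).summable, fun δ hδ => (key δ hδ).tsum_eq⟩

end Run7.h684.SO
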