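import Pool.Agent.Run7.h684.SO.Def

/-!
# Project SO, piece ORD: `log |F|` near a point of order `n`
-/

set_option autoImplicit false

open Complex Filter Topology

namespace Run7.h684.SO

theorem t_ORD : S_ORD := by
  intro F t0 n hmer hord hne hcont
  obtain ⟨g, hg, hg0, hev⟩ := (meromorphicOrderAt_eq_int_iff hmer).1 hord
  have hγc : Continuous (fun δ : ℝ => pt δ t0) := by
    unfold pt
    fun_prop
  have hsub : ∀ δ : ℝ, pt δ t0 - pt 0 t0 = (δ : ℂ) := by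
    intro δ
    unfold pt
    push_cast
    ring
  have hγ : Tendsto (fun δ : ℝ => pt δ t0) (𝓝[>] 0) (𝓝[≠] (pt 0 t0)) := by
    refine tendsto_nhdsWithin_iff.2 ⟨(hγc.tendsto 0).mono_left nhdsWithin_le_nhds, ?_⟩
    filter_upwards [self_mem_nhdsWithin] with δ hδ
    intro h
    have h0 : pt δ t0 = pt 0 t0 := h
    have h1 := hsub δ
    rw [h0, sub_self] at h1
    have h2 : (δ : ℝ) = 0 := by exact_mod_cast h1.symm
    exact absurd h2 (ne_of_gt hδ)
  set φ : ℝ → ℝ := fun δ => Real.log ‖F (pt δ t0)‖ - n * Real.log δ with hφ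
  have hlim : Tendsto φ (𝓝[>] 0) (𝓝 (Real.log ‖g (pt 0 t0)‖)) := by
    have h1 : Tendsto (fun δ : ℝ => Real.log ‖g (pt δ t0)‖) (𝓝[>] 0)
        (𝓝 (Real.log ‖g (pt 0 t0)‖)) := by
      have h2 : Tendsto (fun δ : ℝ => g (pt δ t0)) (𝓝[>] 0) (𝓝 (g (pt 0 t0))) :=
        (hg.continuousAt.tendsto).comp (hγ.mono_right nhdsWithin_le_nhds)
      exact (h2.norm).log (norm_ne_zero_iff.2 hg0)
    refine h1.congr' ?_
    filter_upwards [hγ.eventually hev, self_mem_nhdsWithin] with δ hδ hpos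
    have hpos' : (0 : ℝ) < δ := hpos
    have hF := hne δ hpos'
    have hgne : g (pt δ t0) ≠ 0 := by
      intro h0
      rw [hδ, h0, smul_zero] at hF
      exact hF rfl
    have h3 : ‖F (pt δ t0)‖ = δ ^ n * ‖g (pt δ t0)‖ := by
      rw [hδ, hsub, norm_smul, norm_zpow, Complex.norm_real, Real.norm_eq_abs,
        abs_of_pos hpos']
    show Real.log ‖g (pt δ t0)‖ = Real.log ‖F (pt δ t0)‖ - n * Real.log δ
    rw [h3, Real.log_mul (zpow_pos hpos' n).ne' (norm_ne_zero_iff.2 hgne), Real.log_zpow]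
    ring
  set L : ℝ := Real.log ‖g (pt 0 t0)‖ with hL
  have hev2 : ∀ᶠ δ in 𝓝[>] (0 : ℝ), |φ δ| < |L| + 1 :=
    (hlim.abs).eventually (gt_mem_nhds (by linarith))
  obtain ⟨u, hu, hsubset⟩ := mem_nhdsGT_iff_exists_Ioo_subset.1 hev2
  have hu0 : (0 : ℝ) < u := hu
  have hφc : ContinuousOn φ (Set.Icc u 1) := by
    intro δ hδ
    have hδ0 : 0 < δ := lt_of_lt_of_le hu0 hδ.1
    have h1 : ContinuousAt (fun δ : ℝ => F (pt δ t0)) δ :=
      ContinuousAt.comp (f := fun δ : ℝ => pt δ t0) (g := F) (hcont δ hδ0) hγc.continuousAt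
    have h2 : ContinuousAt (fun δ : ℝ => Real.log ‖F (pt δ t0)‖) δ :=
      h1.norm.log (norm_ne_zero_iff.2 (hne δ hδ0))
    have h3 : ContinuousAt (fun δ : ℝ => (n : ℝ) * Real.log δ) δ :=
      continuousAt_const.mul (Real.continuousAt_log hδ0.ne')
    exact (h2.sub h3).continuousWithinAt
  obtain ⟨C, hC⟩ := isCompact_Icc.exists_bound_of_continuousOn hφc
  refine ⟨max (|L| + 1) C, fun δ hδ0 hδ1 => ?_⟩
  rcases lt_or_ge δ u with h | h
  · exact (le_of_lt (hsubset ⟨hδ0, h⟩)).trans (le_max_left _ _)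
  · exact (hC δ ⟨h, hδ1⟩).trans (le_max_right _ _)

end Run7.h684.SO
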